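import Mathlib

/-!
# The list of doubly transitive groups

Predicates on subgroups `G` of `Sym(n)`, in explicit coordinates, one for each infinite class in the
classification of doubly transitive permutation groups:

* affine groups: `OneDim` (subgroups of `AΓL(1, K)`), `AffSL` (groups containing `V ⋊ SL(V)`), `AffSp`
  (groups containing `V ⋊ Sp(V)`), `AffG2` (groups of type `K^6 ⋊ G₂(K)`, `K` of characteristic 2);
* almost simple groups: `Alt`, `ProjSL`, `QuadSp`, `Suz`, `Ree`, `Unitary` (groups containing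
  `Alt(n)`, `PSL(V)` on points, `Sp(2d, 2)` on quadratic forms, the stabiliser of a point in `Sz(K)` or
  `Ree(K)`, `PSU₃(Q)` on the Hermitian unital).
-/

set_option autoImplicit false
open Classical

namespace DTG

/-- the standard symplectic form on `K^d × K^d` -/
def symp {K : Type*} [Field K] {d : ℕ} (x y : (Fin d → K) × (Fin d → K)) : K :=
  ∑ i, (x.1 i * y.2 i - x.2 i * y.1 i)

/-- the functions `θ` on `𝔽₂^{2d}` with `θ (x + y) = θ x + θ y + symp x y` (quadratic forms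
polarising to the symplectic form) of Arf invariant `t` -/
def IsQuad {d : ℕ} (t : ZMod 2) (θ : (Fin d → ZMod 2) × (Fin d → ZMod 2) → ZMod 2) : Prop :=
  (∀ x y, θ (x + y) = θ x + θ y + symp x y) ∧
    ∑ i, θ (Pi.single i 1, 0) * θ (0, Pi.single i 1) = t

/-- the law of the Sylow 2-subgroup of `Sz(K)` on `K × K` -/
def suzMul {K : Type*} [Field K] (σ : K ≃+* K) (g z : K × K) : K × K :=
  (g.1 + z.1, g.2 + z.2 + g.1 * σ z.1)

/-- the law of the Sylow 3-subgroup of `Ree(K)` on `K × K × K` -/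
def reeMul {K : Type*} [Field K] (σ : K ≃+* K) (g z : K × K × K) : K × K × K :=
  (g.1 + z.1, g.2.1 + z.2.1 + g.1 * σ z.1,
    g.2.2 + z.2.2 + g.1 * z.2.1 - g.2.1 * z.1 - g.1 * (z.1 * σ z.1))

/-- the affine points of the Hermitian unital -/
def OnU {L : Type*} [Field L] (Q : ℕ) (z : L × L) : Prop := z.2 + z.2 ^ Q = z.1 * z.1 ^ Q

section groups

variable {n : ℕ}

/-- `G ≤ AΓL(1, K)` -/
def OneDim (K : Type) [Field K] (G : Subgroup (Equiv.Perm (Fin n))) : Prop :=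
  ∃ e : Fin n ≃ K, ∀ π ∈ G, ∃ (σ : K ≃+* K) (a b : K), ∀ k, e (π k) = a * σ (e k) + b

/-- `V ⋊ SL(V) ≤ G`, `dim V ≥ 2` -/
def AffSL (K V : Type) [Field K] [AddCommGroup V] [Module K V]
    (G : Subgroup (Equiv.Perm (Fin n))) : Prop :=
  2 ≤ Module.finrank K V ∧ ∃ e : Fin n ≃ V,
    ∀ (g : V →ₗ[K] V) (b : V), LinearMap.det g = 1 → ∃ π ∈ G, ∀ k, e (π k) = g (e k) + b

/-- `V ⋊ Sp(V) ≤ G`, `V = K^d × K^d` -/
def AffSp (K : Type) [Field K] (d : ℕ) (G : Subgroup (Equiv.Perm (Fin n))) : Prop :=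
  0 < d ∧ ∃ e : Fin n ≃ (Fin d → K) × (Fin d → K),
    ∀ (g : ((Fin d → K) × (Fin d → K)) →ₗ[K] ((Fin d → K) × (Fin d → K)))
      (b : (Fin d → K) × (Fin d → K)), (∀ x y, symp (g x) (g y) = symp x y) →
      ∃ π ∈ G, ∀ k, e (π k) = g (e k) + b

/-- affine groups of type `G₂(K)`, `V = K^3 × K^3`, `K` of characteristic 2: all elements of `G` are
affine maps of the group `V`, and `G` contains all translations and all `(x, y) ↦ (A x, A^{-T} y)`
with `det A = 1` (the subgroup `SL₃(K)` of `G₂(K)`) -/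
def AffG2 (K : Type) [Field K] (G : Subgroup (Equiv.Perm (Fin n))) : Prop :=
  ringChar K = 2 ∧ ∃ e : Fin n ≃ (Fin 3 → K) × (Fin 3 → K),
    (∀ π ∈ G, ∃ (φ : ((Fin 3 → K) × (Fin 3 → K)) ≃+ ((Fin 3 → K) × (Fin 3 → K)))
      (b : (Fin 3 → K) × (Fin 3 → K)), ∀ k, e (π k) = φ (e k) + b) ∧
    ∀ (A : Matrix (Fin 3) (Fin 3) K) (b : (Fin 3 → K) × (Fin 3 → K)), A.det = 1 →
      ∃ π ∈ G, ∀ k, e (π k) = (A.mulVec (e k).1, A⁻¹.transpose.mulVec (e k).2) + b

/-- `Alt(n) ≤ G` -/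
def Alt (G : Subgroup (Equiv.Perm (Fin n))) : Prop := alternatingGroup (Fin n) ≤ G

/-- `PSL(V) ≤ G` on the points of the projective space of `V`, `dim V ≥ 2`; `pt v` is the point
spanned by `v ≠ 0` -/
def ProjSL (K V : Type) [Field K] [AddCommGroup V] [Module K V]
    (G : Subgroup (Equiv.Perm (Fin n))) : Prop :=
  Finite K ∧ 2 ≤ Module.finrank K V ∧ ∃ pt : V → Fin n,
    (∀ i, ∃ v : V, v ≠ 0 ∧ pt v = i) ∧
    (∀ v w : V, v ≠ 0 → w ≠ 0 → (pt v = pt w ↔ ∃ c : K, w = c • v)) ∧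
    ∀ g : V →ₗ[K] V, LinearMap.det g = 1 → ∃ π ∈ G, ∀ v : V, v ≠ 0 → π (pt v) = pt (g v)

/-- `Sp(2d, 2) ≤ G` on the quadratic forms of one type -/
def QuadSp (d : ℕ) (t : ZMod 2) (G : Subgroup (Equiv.Perm (Fin n))) : Prop :=
  ∃ e : Fin n ≃ {θ : (Fin d → ZMod 2) × (Fin d → ZMod 2) → ZMod 2 // IsQuad t θ},
    ∀ g : ((Fin d → ZMod 2) × (Fin d → ZMod 2)) →ₗ[ZMod 2] ((Fin d → ZMod 2) × (Fin d → ZMod 2)),
      (∀ x y, symp (g x) (g y) = symp x y) → ∃ π ∈ G, ∀ k x, (e (π k)).1 x = (e k).1 (g x)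

/-- `G` contains the stabiliser of a point in the Suzuki group `Sz(K)`: the points are `∞` and the
elements of `K × K`, the stabiliser of `∞` is generated by the translations for the law `suzMul` and by
the maps `(x, y) ↦ (κ x, κ σ(κ) y)` -/
def Suz (K : Type) [Field K] (σ : K ≃+* K) (G : Subgroup (Equiv.Perm (Fin n))) : Prop :=
  ringChar K = 2 ∧ (∀ x, σ (σ x) = x ^ 2) ∧ ∃ e : Fin n ≃ Option (K × K),
    (∀ g, ∃ π ∈ G, ∀ k, e (π k) = (e k).map (suzMul σ g)) ∧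
    ∀ κ : K, κ ≠ 0 → ∃ π ∈ G, ∀ k, e (π k) = (e k).map fun z => (κ * z.1, κ * σ κ * z.2)

/-- `G` contains the stabiliser of a point in the Ree group `Ree(K)`: the points are `∞` and the
elements of `K × K × K`, the stabiliser of `∞` is generated by the translations for the law `reeMul` and
by the maps `(x, y, z) ↦ (κ x, κ σ(κ) y, κ² σ(κ) z)` -/
def Ree (K : Type) [Field K] (σ : K ≃+* K) (G : Subgroup (Equiv.Perm (Fin n))) : Prop :=
  ringChar K = 3 ∧ (∀ x, σ (σ x) = x ^ 3) ∧ ∃ e : Fin n ≃ Option (K × K × K),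
    (∀ g, ∃ π ∈ G, ∀ k, e (π k) = (e k).map (reeMul σ g)) ∧
    ∀ κ : K, κ ≠ 0 → ∃ π ∈ G, ∀ k,
      e (π k) = (e k).map fun z => (κ * z.1, κ * σ κ * z.2.1, κ * κ * σ κ * z.2.2)

/-- `PSU₃(Q) ≤ G` on the `Q³ + 1` points of the Hermitian unital: the points are `∞` and the
`(x, y) ∈ L²` with `y + y^Q = x^(Q+1)`, `|L| = Q²`; the group is generated by the maps
`(x, y) ↦ (a + x, b + y + a^Q x)`, `(a, b)` a point, the maps `(x, y) ↦ (κ x, κ^(Q+1) y)` with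
`κ = ρ^Q / ρ²`, and `(x, y) ↦ (x / y, 1 / y)`, which exchanges `∞` and `(0, 0)` -/
def Unitary (L : Type) [Field L] (Q : ℕ) (G : Subgroup (Equiv.Perm (Fin n))) : Prop :=
  Nat.card L = Q ^ 2 ∧ ∃ e : Fin n ≃ Option {z : L × L // OnU Q z},
    (∀ g : L × L, OnU Q g → ∃ π ∈ G, ∀ k, (e (π k)).map Subtype.val =
      ((e k).map Subtype.val).map fun z => (g.1 + z.1, g.2 + z.2 + g.1 ^ Q * z.1)) ∧
    (∀ ρ : L, ρ ≠ 0 → ∃ π ∈ G, ∀ k, (e (π k)).map Subtype.val =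
      ((e k).map Subtype.val).map
        fun z => (ρ ^ Q / ρ ^ 2 * z.1, (ρ ^ Q / ρ ^ 2) ^ (Q + 1) * z.2)) ∧
    ∃ π ∈ G, ∀ k, (e (π k)).map Subtype.val =
      ((e k).map Subtype.val).elim (some (0, 0))
        fun z => if z = (0, 0) then none else some (z.1 / z.2, 1 / z.2)

/-- `G` is in the list -/
def Listed (G : Subgroup (Equiv.Perm (Fin n))) : Prop :=
  (∃ (K : Type) (_ : Field K), OneDim K G) ∨
  (∃ (K V : Type) (_ : Field K) (_ : AddCommGroup V) (_ : Module K V), AffSL K V G) ∨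
  (∃ (K : Type) (_ : Field K) (d : ℕ), AffSp K d G) ∨
  (∃ (K : Type) (_ : Field K), AffG2 K G) ∨
  Alt G ∨
  (∃ (K V : Type) (_ : Field K) (_ : AddCommGroup V) (_ : Module K V), ProjSL K V G) ∨
  (∃ (d : ℕ) (t : ZMod 2), QuadSp d t G) ∨
  (∃ (K : Type) (_ : Field K) (σ : K ≃+* K), Suz K σ G) ∨
  (∃ (K : Type) (_ : Field K) (σ : K ≃+* K), Ree K σ G) ∨
  ∃ (L : Type) (_ : Field L) (Q : ℕ), Unitary L Q G

end groups

end DTG
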