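import Pool.Agent.Lib.LTL.Defs
import Pool.Agent.Lib.DTG.List

/-!
# From the list of doubly transitive groups to the families of codes

If a code `C` over a finite field is invariant under a doubly transitive group in the list
`DTG.Listed`, then `C` is in one of the families `Pltc.Covered`, `LTL.LastCovered`.
-/

set_option autoImplicit false
open Classical

namespace DTG

open P61e83e Pltc LTL

variable {F : Type} [Field F] {n : ℕ}

theorem pow_map {X : Type} (e : Fin n ≃ Option X) (π : Equiv.Perm (Fin n)) (s : X → X)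
    (h : ∀ k, e (π k) = (e k).map s) (m : ℕ) : ∀ k, e ((π ^ m) k) = (e k).map s^[m] := by
  induction m with
  | zero =>
    intro k
    rw [pow_zero, Function.iterate_zero, Option.map_id]
    rfl
  | succ m ih =>
    intro k
    rw [pow_succ, Equiv.Perm.mul_apply, ih, h, Option.map_map, Function.iterate_succ]

/-- a criterion for `NaturalRankOne` -/
theorem natural_of_maps {X : Type} (C : Submodule F (Fin n → F)) (hp0 : 0 < ringChar F)
    (e : Fin n ≃ Option X) (S : Set (X → X)) (hid : id ∈ S)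
    (hmul : ∀ s ∈ S, ∀ t ∈ S, s ∘ t ∈ S) (hord : ∀ s ∈ S, s^[ringChar F ^ 2] = id)
    (htr : ∀ x y : X, ∃ s ∈ S, s x = y)
    (hC : ∀ s ∈ S, ∃ π : Equiv.Perm (Fin n), Pres C π ∧ ∀ k, e (π k) = (e k).map s) :
    NaturalRankOne C := by
  have hpow : ∀ π : Equiv.Perm (Fin n), (∃ s ∈ S, ∀ k, e (π k) = (e k).map s) →
      π ^ (ringChar F ^ 2) = 1 := by
    rintro π ⟨s, hs, h⟩
    ext k
    have h1 := pow_map e π s h (ringChar F ^ 2) k
    rw [hord s hs, Option.map_id] at h1
    have h2 := e.injective h1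
    rw [h2]
    rfl
  let M : Submonoid (Equiv.Perm (Fin n)) :=
    { carrier := {π | Pres C π ∧ ∃ s ∈ S, ∀ k, e (π k) = (e k).map s}
      one_mem' := ⟨fun _ hf => hf, id, hid, fun k => by rw [Option.map_id]; rfl⟩
      mul_mem' := by
        rintro a b ⟨ha, s, hs, has⟩ ⟨hb, t, ht, hbt⟩
        refine ⟨Pres.mul ha hb, s ∘ t, hmul s hs t ht, fun k => ?_⟩
        rw [Equiv.Perm.mul_apply, has, hbt, Option.map_map] }
  let P : Subgroup (Equiv.Perm (Fin n)) :=
    { M with
      inv_mem' := by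
        intro a ha
        have h1 : a ^ (ringChar F ^ 2) = 1 := hpow a ha.2
        have h2 : a ^ (ringChar F ^ 2 - 1) * a = 1 := by
          rw [← pow_succ, Nat.sub_add_cancel (Nat.pow_pos hp0), h1]
        have h3 : a⁻¹ = a ^ (ringChar F ^ 2 - 1) := (eq_inv_of_mul_eq_one_left h2).symm
        rw [h3]
        exact M.pow_mem ha _ }
  have hP : ∀ π ∈ P, Pres C π ∧ ∃ s ∈ S, ∀ k, e (π k) = (e k).map s := fun π hπ => hπ
  refine ⟨e.symm none, P, ?_, ?_, ?_⟩
  · rintro ⟨π, hπ⟩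
    refine ⟨2, ?_⟩
    have h1 := hpow π (hP π hπ).2
    exact Subtype.ext h1
  · intro π hπ
    obtain ⟨h1, s, hs, h2⟩ := hP π hπ
    refine ⟨h1, ?_⟩
    apply e.injective
    rw [h2, Equiv.apply_symm_apply]
    rfl
  · intro i j hi hj
    have hi' : e i ≠ none := fun h => hi (by rw [← h, Equiv.symm_apply_apply])
    have hj' : e j ≠ none := fun h => hj (by rw [← h, Equiv.symm_apply_apply])
    obtain ⟨x, hx⟩ := Option.ne_none_iff_exists'.1 hi'
    obtain ⟨y, hy⟩ := Option.ne_none_iff_exists'.1 hj'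
    obtain ⟨s, hs, hsx⟩ := htr x y
    obtain ⟨π, hπ, h⟩ := hC s hs
    refine ⟨π, ⟨hπ, s, hs, h⟩, ?_⟩
    apply e.injective
    rw [h, hx, hy, Option.map_some, hsx]

/-- Suzuki groups in characteristic 2 -/
theorem natural_suz (C : Submodule F (Fin n → F)) (hF : ringChar F = 2) {K : Type} [Field K]
    (hK : ringChar K = 2) (σ : K ≃+* K) (e : Fin n ≃ Option (K × K))
    (h : ∀ g, ∃ π : Equiv.Perm (Fin n), Pres C π ∧ ∀ k, e (π k) = (e k).map (LTL.suzMul σ g)) :
    NaturalRankOne C := by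
  have h2 : (2 : K) = 0 := by
    have := ringChar.Nat.cast_ringChar (R := K)
    rw [hK] at this
    exact_mod_cast this
  have hmul : ∀ g g' : K × K, LTL.suzMul σ g ∘ LTL.suzMul σ g' = LTL.suzMul σ (LTL.suzMul σ g g') := by
    intro g g'
    funext z
    refine Prod.ext ?_ ?_
    · simp only [LTL.suzMul, Function.comp_apply]
      ring
    · simp only [LTL.suzMul, Function.comp_apply, map_add]
      ring
  have hid : LTL.suzMul σ (0, 0) = id := by
    funext z
    refine Prod.ext ?_ ?_ <;> simp [LTL.suzMul]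
  refine natural_of_maps C (by omega) e (Set.range (LTL.suzMul σ)) ⟨(0, 0), hid⟩ ?_ ?_ ?_ ?_
  · rintro _ ⟨g, rfl⟩ _ ⟨g', rfl⟩
    exact ⟨_, (hmul g g').symm⟩
  · rintro _ ⟨g, rfl⟩
    rw [hF]
    have h3 : (LTL.suzMul σ g)^[2 ^ 2] = ((LTL.suzMul σ g)^[2])^[2] := rfl
    have h4 : ∀ f : K × K → K × K, f^[2] = f ∘ f := fun f => rfl
    rw [h3, h4, h4, hmul, hmul, ← hid]
    congr 1
    refine Prod.ext ?_ ?_
    · simp only [LTL.suzMul]
      linear_combination 2 * g.1 * h2
    · simp only [LTL.suzMul, map_add]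
      linear_combination (2 * g.2 + 3 * g.1 * σ g.1) * h2
  · intro x y
    refine ⟨_, ⟨(y.1 - x.1, y.2 - x.2 - (y.1 - x.1) * σ x.1), rfl⟩, ?_⟩
    refine Prod.ext ?_ ?_
    · simp [LTL.suzMul]
    · simp only [LTL.suzMul]
      ring
  · rintro _ ⟨g, rfl⟩
    exact h g

/-- Ree groups in characteristic 3 -/
theorem natural_ree (C : Submodule F (Fin n → F)) (hF : ringChar F = 3) {K : Type} [Field K]
    (hK : ringChar K = 3) (σ : K ≃+* K) (e : Fin n ≃ Option (K × K × K))
    (h : ∀ g, ∃ π : Equiv.Perm (Fin n), Pres C π ∧ ∀ k, e (π k) = (e k).map (LTL.reeMul σ g)) :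
    NaturalRankOne C := by
  have h3 : (3 : K) = 0 := by
    have := ringChar.Nat.cast_ringChar (R := K)
    rw [hK] at this
    exact_mod_cast this
  have hmul : ∀ g g' : K × K × K, LTL.reeMul σ g ∘ LTL.reeMul σ g' = LTL.reeMul σ (LTL.reeMul σ g g') := by
    intro g g'
    funext z
    refine Prod.ext ?_ (Prod.ext ?_ ?_)
    · simp only [LTL.reeMul, Function.comp_apply]
      ring
    · simp only [LTL.reeMul, Function.comp_apply, map_add]
      ring
    · simp only [LTL.reeMul, Function.comp_apply, map_add]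
      ring
  have hid : LTL.reeMul σ (0, 0, 0) = id := by
    funext z
    refine Prod.ext ?_ (Prod.ext ?_ ?_) <;> simp [LTL.reeMul]
  refine natural_of_maps C (by omega) e (Set.range (LTL.reeMul σ)) ⟨(0, 0, 0), hid⟩ ?_ ?_ ?_ ?_
  · rintro _ ⟨g, rfl⟩ _ ⟨g', rfl⟩
    exact ⟨_, (hmul g g').symm⟩
  · rintro _ ⟨g, rfl⟩
    rw [hF]
    have h5 : (LTL.reeMul σ g)^[3 ^ 2] = ((LTL.reeMul σ g)^[3])^[3] := rfl
    have h4 : ∀ f : K × K × K → K × K × K, f^[3] = f ∘ f ∘ f := fun f => rfl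
    rw [h5, h4, h4, hmul, hmul, hmul, hmul, ← hid]
    congr 1
    obtain ⟨a, b, c⟩ := g
    have h6 : (LTL.reeMul σ (a, b, c) (LTL.reeMul σ (a, b, c) (a, b, c))).1 = 0 := by
      simp only [LTL.reeMul]
      linear_combination a * h3
    have h7 : ∀ g : K × K × K, g.1 = 0 → LTL.reeMul σ g (LTL.reeMul σ g g) = (0, 0, 0) := by
      rintro ⟨a, b, c⟩ ha
      have ha' : a = 0 := ha
      subst ha'
      refine Prod.ext ?_ (Prod.ext ?_ ?_)
      · simp [LTL.reeMul]
      · simp only [LTL.reeMul, map_zero]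
        linear_combination b * h3
      · simp only [LTL.reeMul, map_zero]
        linear_combination c * h3
    exact h7 _ h6
  · intro x y
    refine ⟨_, ⟨(y.1 - x.1, y.2.1 - x.2.1 - (y.1 - x.1) * σ x.1,
      y.2.2 - x.2.2 - (y.1 - x.1) * x.2.1 + (y.2.1 - x.2.1 - (y.1 - x.1) * σ x.1) * x.1 +
        (y.1 - x.1) * (x.1 * σ x.1)), rfl⟩, ?_⟩
    refine Prod.ext ?_ (Prod.ext ?_ ?_)
    · simp [LTL.reeMul]
    · simp only [LTL.reeMul]
      ring
    · simp only [LTL.reeMul]
      ring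
  · rintro _ ⟨g, rfl⟩
    exact h g

/-- unitary groups in their own characteristic -/
theorem natural_uni (C : Submodule F (Fin n → F)) (hF : (ringChar F).Prime)
    {L : Type} [Field L] (Q : ℕ) (e : Fin n ≃ Option {z : L × L // LTL.OnU Q z})
    (hL : Nat.card L = Q ^ 2) (hQ : (Q : F) = 0)
    (h : ∀ g : L × L, LTL.OnU Q g → ∃ π : Equiv.Perm (Fin n), Pres C π ∧
      ∀ k, (e (π k)).map Subtype.val = ((e k).map Subtype.val).map (uniMul Q g)) :
    NaturalRankOne C := by
  have hX : Finite {z : L × L // LTL.OnU Q z} := by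
    have h1 : Finite (Option {z : L × L // LTL.OnU Q z}) := Finite.of_equiv _ e
    exact Finite.of_injective some (Option.some_injective _)
  have hQ0 : Q ≠ 0 := by
    rintro rfl
    have h1 : Finite L := by
      refine Finite.of_injective
        (fun x : L => (⟨(x, x - 1), by simp [LTL.OnU]⟩ : {z : L × L // LTL.OnU 0 z})) ?_
      intro a b hab
      exact congrArg (fun z => z.1.1) hab
    have h2 : 0 < Nat.card L := Nat.card_pos
    omega
  have hfin : Finite L := by
    refine Nat.finite_of_card_ne_zero ?_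
    rw [hL]
    positivity
  let _ : Fintype L := Fintype.ofFinite L
  have hLc : Fintype.card L = Q ^ 2 := by rw [← Nat.card_eq_fintype_card, hL]
  have hpQ : ringChar F ∣ Q := (ringChar.spec F Q).1 hQ
  obtain ⟨m, hl, hm⟩ := FiniteField.card L (ringChar L)
  have hpl : ringChar F = ringChar L := by
    have h1 : ringChar F ∣ ringChar L ^ (m : ℕ) := by
      rw [← hm, hLc]
      exact hpQ.trans (dvd_pow_self Q two_ne_zero)
    exact (Nat.prime_dvd_prime_iff_eq hF hl).1 (hF.dvd_of_dvd_pow h1)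
  obtain ⟨j, -, hj⟩ : ∃ j ≤ (m : ℕ), Q = ringChar L ^ j := by
    refine (Nat.dvd_prime_pow hl).1 ?_
    rw [← hm, hLc]
    exact dvd_pow_self Q two_ne_zero
  have : Fact (ringChar L).Prime := ⟨hl⟩
  have hadd : ∀ x y : L, (x + y) ^ Q = x ^ Q + y ^ Q := by
    intro x y
    rw [hj]
    exact add_pow_char_pow x y _ _
  have hsub : ∀ x y : L, (x - y) ^ Q = x ^ Q - y ^ Q := by
    intro x y
    rw [hj]
    exact sub_pow_char_pow x y _
  have hQQ : ∀ x : L, (x ^ Q) ^ Q = x := by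
    intro x
    rw [← pow_mul, ← sq, ← hLc]
    exact FiniteField.pow_card x
  have hp : ((ringChar F : ℕ) : L) = 0 := by
    rw [hpl]
    exact ringChar.Nat.cast_ringChar
  have hcl : ∀ g z : L × L, LTL.OnU Q g → LTL.OnU Q z → LTL.OnU Q (uniMul Q g z) := by
    rintro ⟨a, b⟩ ⟨x, y⟩ hg hz
    simp only [LTL.OnU, uniMul] at hg hz ⊢
    rw [hadd, hadd, mul_pow, hQQ, hadd]
    linear_combination hg + hz
  have hcomp : ∀ g g' z : L × L,
      uniMul Q g (uniMul Q g' z) = uniMul Q (uniMul Q g g') z := by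
    rintro ⟨a, b⟩ ⟨a', b'⟩ ⟨x, y⟩
    refine Prod.ext ?_ ?_
    · simp only [uniMul]
      ring
    · simp only [uniMul]
      rw [hadd]
      ring
  refine natural_of_maps C hF.pos e
    {s | ∃ g : L × L, LTL.OnU Q g ∧ ∀ z, (s z).1 = uniMul Q g z.1} ?_ ?_ ?_ ?_ ?_
  · refine ⟨(0, 0), ?_, fun z => ?_⟩
    · simp [LTL.OnU, hQ0]
    · refine Prod.ext ?_ ?_ <;> simp [uniMul, hQ0]
  · rintro s ⟨g, hg, hs⟩ t ⟨g', hg', ht⟩
    refine ⟨uniMul Q g g', hcl g g' hg hg', fun z => ?_⟩
    rw [Function.comp_apply, hs, ht, hcomp]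
  · rintro s ⟨g, hg, hs⟩
    have h1 : ∀ (m : ℕ) z, (s^[m] z).1 = (m * g.1 + z.1.1,
        m * g.2 + z.1.2 + m * g.1 ^ Q * z.1.1 + (m.choose 2 : ℕ) * (g.1 ^ Q * g.1)) := by
      intro m
      induction m with
      | zero =>
        intro z
        refine Prod.ext ?_ ?_ <;> simp
      | succ m ih =>
        intro z
        rw [Function.iterate_succ_apply', hs, ih]
        have h2 : (((m + 1).choose 2 : ℕ) : L) = m + (m.choose 2 : ℕ) := by
          rw [Nat.choose_succ_succ' m 1, Nat.choose_one_right]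
          push_cast
          ring
        refine Prod.ext ?_ ?_
        · simp only [uniMul]
          push_cast
          ring
        · simp only [uniMul]
          rw [h2]
          push_cast
          ring
    have h2 : ∀ z, (s^[ringChar F] z).1 = (z.1.1,
        z.1.2 + ((ringChar F).choose 2 : ℕ) * (g.1 ^ Q * g.1)) := by
      intro z
      rw [h1, hp]
      refine Prod.ext ?_ ?_
      · simp only []
        ring
      · simp only []
        ring
    have h3 : ∀ (m : ℕ) z, ((s^[ringChar F])^[m] z).1 = (z.1.1,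
        z.1.2 + m * (((ringChar F).choose 2 : ℕ) * (g.1 ^ Q * g.1))) := by
      intro m
      induction m with
      | zero =>
        intro z
        refine Prod.ext ?_ ?_ <;> simp
      | succ m ih =>
        intro z
        rw [Function.iterate_succ_apply', h2, ih]
        refine Prod.ext rfl ?_
        simp only []
        push_cast
        ring
    rw [sq, Function.iterate_mul]
    funext z
    apply Subtype.ext
    rw [h3, hp]
    refine Prod.ext ?_ ?_ <;> simp
  · rintro ⟨⟨x, y⟩, hx⟩ ⟨⟨x', y'⟩, hx'⟩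
    have hg : LTL.OnU Q (x' - x, y' - y - (x' - x) ^ Q * x) := by
      simp only [LTL.OnU] at hx hx' ⊢
      simp only [hsub, mul_pow, hQQ]
      linear_combination hx' - hx
    refine ⟨fun z => ⟨uniMul Q (x' - x, y' - y - (x' - x) ^ Q * x) z.1, hcl _ _ hg z.2⟩,
      ⟨_, hg, fun z => rfl⟩, ?_⟩
    apply Subtype.ext
    refine Prod.ext ?_ ?_
    · simp only [uniMul]
      ring
    · simp only [uniMul, hsub]
      ring
  · rintro s ⟨g, hg, hs⟩
    obtain ⟨π, hπ, hk⟩ := h g hg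
    refine ⟨π, hπ, fun k => ?_⟩
    apply Option.map_injective Subtype.val_injective
    rw [hk, Option.map_map, Option.map_map]
    congr 1
    funext z
    exact (hs z).symm

/-- affine groups of type `G₂` in the other characteristics -/
theorem cross_g2 (C : Submodule F (Fin n → F)) (G : Subgroup (Equiv.Perm (Fin n)))
    (hGC : ∀ π ∈ G, Pres C π)
    (hG : ∀ i j i' j' : Fin n, i ≠ j → i' ≠ j' → ∃ π ∈ G, π i = i' ∧ π j = j')
    (hF : ringChar F ≠ 2)
    {K : Type} [Field K] (e : Fin n ≃ (Fin 3 → K) × (Fin 3 → K)) (hK : ringChar K = 2)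
    (haff : ∀ π ∈ G,
      ∃ (φ : ((Fin 3 → K) × (Fin 3 → K)) ≃+ ((Fin 3 → K) × (Fin 3 → K)))
        (b : (Fin 3 → K) × (Fin 3 → K)), ∀ k, e (π k) = φ (e k) + b)
    (htr : ∀ b : (Fin 3 → K) × (Fin 3 → K), ∃ π : Equiv.Perm (Fin n), Pres C π ∧
      ∀ k, e (π k) = e k + b) : AffineCross C := by
  refine ⟨(Fin 3 → K) × (Fin 3 → K), inferInstance, e, ?_, htr, ?_⟩
  · have hV : Finite ((Fin 3 → K) × (Fin 3 → K)) := Finite.of_equiv _ e
    have hK1 : Finite K := by
      refine Finite.of_injective (fun a : K => ((fun _ => a, 0) : (Fin 3 → K) × (Fin 3 → K))) ?_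
      intro a b hab
      exact congrFun (congrArg Prod.fst hab) 0
    let _ : Fintype K := Fintype.ofFinite K
    obtain ⟨m, hl, hm⟩ := FiniteField.card K (ringChar K)
    rw [hK] at hm
    have hn : n = 2 ^ ((m : ℕ) * 6) := by
      have h1 := Fintype.card_congr e
      rw [Fintype.card_fin, Fintype.card_prod, Fintype.card_fun, Fintype.card_fin, hm] at h1
      rw [h1, ← pow_mul, ← pow_add]
      congr 1
      ring
    rw [hn]
    push_cast
    exact pow_ne_zero _ (Ring.two_ne_zero hF)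
  · intro i j i' j' hij hij'
    obtain ⟨π, hπ, h1, h2⟩ := hG i j i' j' hij hij'
    exact ⟨π, haff π hπ, hGC π hπ, h1, h2⟩

/-- A code invariant under a doubly transitive group in the list is in one of the families. -/
theorem covered_of_listed (C : Submodule F (Fin n → F)) (hF : (ringChar F).Prime)
    (G : Subgroup (Equiv.Perm (Fin n))) (hGC : ∀ π ∈ G, Pres C π)
    (hG : ∀ i j i' j' : Fin n, i ≠ j → i' ≠ j' → ∃ π ∈ G, π i = i' ∧ π j = j')
    (h : Listed G) : Covered C ∨ LastCovered C := by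
  have hsub : ∀ {P : Equiv.Perm (Fin n) → Prop}, (∃ π ∈ G, P π) → ∃ π, Pres C π ∧ P π := by
    rintro P ⟨π, hπ, h⟩
    exact ⟨π, hGC π hπ, h⟩
  rcases h with h | h | h | h | h | h | h | h | h | h
  · obtain ⟨K, hK, e, he⟩ := h
    refine Or.inl (Or.inl ⟨K, hK, e, fun i j i' j' hij hij' => ?_⟩)
    obtain ⟨π, hπ, h1, h2⟩ := hG i j i' j' hij hij'
    exact ⟨π, he π hπ, hGC π hπ, h1, h2⟩
  · obtain ⟨K, V, hK, hV, hM, h2, e, h⟩ := h
    exact Or.inl (Or.inr (Or.inr (Or.inl
      ⟨K, V, hK, hV, hM, e, h2, fun g b hg => hsub (h g b hg)⟩)))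
  · obtain ⟨K, hK, d, hd, e, h⟩ := h
    exact Or.inl (Or.inr (Or.inr (Or.inr (Or.inl
      ⟨K, hK, d, e, hd, fun g b hg => hsub (h g b hg)⟩))))
  · obtain ⟨K, hK, hK2, e, haff, hA⟩ := h
    by_cases hF2 : ringChar F = 2
    · exact Or.inr (Or.inl ⟨K, hK, e, by rw [hK2, hF2], fun A b hA' => hsub (hA A b hA')⟩)
    · refine Or.inl (Or.inr (Or.inl (cross_g2 C G hGC hG hF2 e hK2 haff fun b => ?_)))
      obtain ⟨π, hπ, hk⟩ := hsub (hA 1 b Matrix.det_one)
      refine ⟨π, hπ, fun k => ?_⟩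
      rw [hk]
      simp
  · exact Or.inl (Or.inr (Or.inr (Or.inr (Or.inr (Or.inr (Or.inr (Or.inr
      fun π hπ => hGC π (h hπ))))))))
  · obtain ⟨K, V, hK, hV, hM, hKf, h2, pt, hs, hf, h⟩ := h
    exact Or.inl (Or.inr (Or.inr (Or.inr (Or.inr (Or.inl
      ⟨K, V, hK, hKf, hV, hM, pt, h2, hs, hf, fun g hg => hsub (h g hg)⟩)))))
  · obtain ⟨d, t, e, h⟩ := h
    exact Or.inl (Or.inr (Or.inr (Or.inr (Or.inr (Or.inr (Or.inl
      ⟨d, t, e, fun g hg => hsub (h g hg)⟩))))))
  · obtain ⟨K, hK, σ, hK2, hσ, e, h1, h2⟩ := h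
    by_cases hF2 : ringChar F = 2
    · exact Or.inl (Or.inr (Or.inr (Or.inr (Or.inr (Or.inr (Or.inr (Or.inl
        (natural_suz C hF2 hK2 σ e fun g => hsub (h1 g)))))))))
    · exact Or.inr (Or.inr (Or.inl ⟨K, hK, σ, e, hK2, hF2, hσ, fun g => hsub (h1 g),
        fun κ hκ => hsub (h2 κ hκ)⟩))
  · obtain ⟨K, hK, σ, hK3, hσ, e, h1, h2⟩ := h
    by_cases hF3 : ringChar F = 3
    · exact Or.inl (Or.inr (Or.inr (Or.inr (Or.inr (Or.inr (Or.inr (Or.inl
        (natural_ree C hF3 hK3 σ e fun g => hsub (h1 g)))))))))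
    · exact Or.inr (Or.inr (Or.inr (Or.inl ⟨K, hK, σ, e, hK3, hF3, hσ, fun g => hsub (h1 g),
        fun κ hκ => hsub (h2 κ hκ)⟩)))
  · obtain ⟨L, hL, Q, hLQ, e, h1, h2, h3⟩ := h
    by_cases hQ : (Q : F) = 0
    · exact Or.inl (Or.inr (Or.inr (Or.inr (Or.inr (Or.inr (Or.inr (Or.inl
        (natural_uni C hF Q e hLQ hQ fun g hg => hsub (h1 g hg)))))))))
    · exact Or.inr (Or.inr (Or.inr (Or.inr ⟨L, hL, Q, e, hLQ, hQ, fun g hg => hsub (h1 g hg),
        fun ρ hρ => hsub (h2 ρ hρ), hsub h3⟩)))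

end DTG
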